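import Pool.Agent.H.MP_7a0c2d_lc.Red

namespace Pool.Agent.H.MP_26ac3f_lc

open Classical Filter Topology Finset Pool.Agent.H.MP_7a0c2d_lc

theorem good2 (D : ℕ → ℝ → ℝ) (hc : ∀ i, Continuous (D i)) {l L : ℝ} (hl : 0 < l)
    (hlL : L ≤ 2 * l) (hI : ∀ i u v, |∫ x in u..v, D i x| ≤ L) (s : ℕ → ℝ) (T : ℕ) (c : ℝ) :
    ∃ c', c ≤ c' ∧ c' ≤ c + l ∧
      ∑ i ∈ range T, s i * D i c' ≤ 2 * ∑ i ∈ range T, |s i| := by
  set g : ℝ → ℝ := fun x => ∑ i ∈ range T, s i * D i x with hg
  have hgc : Continuous g := continuous_finsetSum _ fun i _ => continuous_const.mul (hc i)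
  obtain ⟨c', hc', he⟩ := exists_eq_const_mul_intervalIntegral_of_nonneg (f := g)
    (g := fun _ => (1 : ℝ)) (μ := MeasureTheory.volume) (a := c) (b := c + l) hgc.continuousOn
    (continuous_const.intervalIntegrable _ _) (fun _ _ => zero_le_one)
  rw [Set.uIcc_of_le (by linarith)] at hc'
  simp only [mul_one, intervalIntegral.integral_const, add_sub_cancel_left, smul_eq_mul] at he
  refine ⟨c', hc'.1, hc'.2, ?_⟩
  have hint : ∫ x in c..c + l, g x ≤ (∑ i ∈ range T, |s i|) * L := by
    simp only [hg]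
    rw [intervalIntegral.integral_finsetSum (f := fun i x => s i * D i x)
      (fun i _ => (continuous_const.mul (hc i)).intervalIntegrable _ _), Finset.sum_mul]
    apply Finset.sum_le_sum
    intro i _
    rw [intervalIntegral.integral_const_mul]
    refine (le_abs_self _).trans ?_
    rw [abs_mul]
    exact mul_le_mul_of_nonneg_left (hI i _ _) (abs_nonneg _)
  show g c' ≤ _
  rw [he] at hint
  have hS : 0 ≤ ∑ i ∈ range T, |s i| := Finset.sum_nonneg fun i _ => abs_nonneg _
  have a2 := mul_le_mul_of_nonneg_left hlL hS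
  apply le_of_mul_le_mul_right _ hl
  nlinarith

theorem core2 (D : ℕ → ℕ → ℝ → ℝ) (hc : ∀ i t, Continuous (D i t))
    (hDb : ∀ i t c, |D i t c| ≤ t + 1)
    (hI : ∀ i t u v, |∫ x in u..v, D i t x| ≤ |(2 : ℝ)|⁻¹ ^ (14 * t ^ 2))
    (hL : ∀ i t x y, |x - y| ≤ |(2 : ℝ)|⁻¹ ^ (14 * (t + 1) ^ 2) → |D i t x - D i t y| ≤ 1) :
    ∃ F : (ℕ → Prop) → ℝ,
      (∀ β β' t, (∀ s < t, β s ↔ β' s) → |F β - F β'| ≤ |(2 : ℝ)|⁻¹ ^ t) ∧
      (∀ β s, β (Nat.sqrt s) →
        ∃ m : ℤ, |F β * 2 ^ (2 * 7 * s + 7) - (m + 1 / 2)| ≤ |(2 : ℝ)|⁻¹ ^ 7) ∧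
      (∀ β, (∀ ε : ℝ, 0 < ε → ∀ᶠ t : ℕ in atTop, (((range t).filter β).card : ℝ) ≤ ε * t) →
        ∀ i, ∀ ε : ℝ, 0 < ε →
          ∀ᶠ t : ℕ in atTop, |∑ s ∈ range t, D i s (F β)| ≤ ε * t ^ 2) := by
  have hα : (1 : ℝ) < |(2 : ℝ)| := by norm_num
  have hR : (2 : ℝ) ≤ |(2 : ℝ)| ^ 7 := by norm_num
  set q := |(2 : ℝ)|⁻¹ with hq
  have qe : q = 1 / 2 := by rw [hq]; norm_num
  have q0 : 0 < q := by positivity
  have q1 : q < 1 := inv_lt_one_of_one_lt₀ hα
  set N : ℕ → ℕ := fun t => 14 * t ^ 2 with hN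
  have hN1 : ∀ t, N (t + 1) = N t + 2 * 7 * (2 * t + 1) := fun t => by simp only [hN]; ring
  have step : ∀ (t : ℕ) (b : Prop) (c : ℝ) (S : ℕ → ℝ), ∃ c', c ≤ c' ∧
      c' + q ^ N (t + 1) ≤ c + q ^ N t ∧
      (b → ∀ i < 2 * t + 1, ∀ ξ, c' ≤ ξ → ξ ≤ c' + q ^ N (t + 1) →
        ∃ m : ℤ, |ξ * 2 ^ (N t + 2 * 7 * i + 7) - (m + 1 / 2)| ≤ q ^ 7) ∧
      (¬ b → ∑ i ∈ range (t + 1), ((1 / 4) ^ i * S i) * D i t c' ≤
        2 * ∑ i ∈ range (t + 1), |(1 / 4) ^ i * S i|) := by
    intro t b c S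
    by_cases hb : b
    · obtain ⟨c', a1, a2, a3⟩ := bad_block hα hR (N t) c (2 * t + 1)
      rw [← hN1] at a2 a3
      exact ⟨c', a1, a2, fun _ => a3, fun h => (h hb).elim⟩
    · have l1 : q ^ N (t + 1) ≤ q ^ (N t + 1) :=
        pow_le_pow_of_le_one q0.le q1.le (by rw [hN1]; omega)
      have l2 : q ^ (N t + 1) = q ^ N t / 2 := by rw [pow_succ, qe]; ring
      have l3 : 0 < q ^ N t := by positivity
      rw [l2] at l1
      have l4 : ∀ A B : ℝ, A ≤ B / 2 → 0 < B → 0 < B - A ∧ B ≤ 2 * (B - A) :=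
        fun A B u v => ⟨by linarith, by linarith⟩
      obtain ⟨c', a1, a2, a3⟩ := good2 (fun i => D i t) (fun i => hc i t)
        (l := q ^ N t - q ^ N (t + 1)) (L := q ^ N t) (l4 _ _ l1 l3).1 (l4 _ _ l1 l3).2
        (fun i => hI i t) (fun i => (1 / 4) ^ i * S i) (t + 1) c
      exact ⟨c', a1, by linarith, fun h => (hb h).elim, fun _ => a3⟩
  choose nx h1 h2 h3 h4 using step
  let st : (ℕ → Prop) → ℕ → ℝ × (ℕ → ℝ) := fun β t => Nat.rec (0, fun _ => 0)
    (fun t s => (nx t (β t) s.1 s.2,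
      fun i => s.2 i + if β t then 0 else D i t (nx t (β t) s.1 s.2))) t
  have st1 : ∀ β t, (st β (t + 1)).1 = nx t (β t) (st β t).1 (st β t).2 := fun _ _ => rfl
  have st2 : ∀ β t i, (st β (t + 1)).2 i =
      (st β t).2 i + if β t then 0 else D i t (st β (t + 1)).1 := fun _ _ _ => rfl
  have loc : ∀ β β' t, (∀ s < t, β s ↔ β' s) → st β t = st β' t := by
    intro β β' t h
    induction t with
    | zero => rfl
    | succ t ih =>
      have e := ih fun s hs => h s (by omega)
      have e2 : β t = β' t := propext (h t (by omega))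
      apply Prod.ext
      · rw [st1, st1, e, e2]
      · funext i
        rw [st2, st2, st1, st1, e, e2]
  have mono1 : ∀ β, Monotone fun t => (st β t).1 := fun β =>
    monotone_nat_of_le_succ fun t => by rw [st1]; exact h1 _ _ _ _
  have mono2 : ∀ β, Antitone fun t => (st β t).1 + q ^ N t := fun β =>
    antitone_nat_of_succ_le fun t => by rw [st1]; exact h2 _ _ _ _
  have bdd : ∀ β t t', (st β t').1 ≤ (st β t).1 + q ^ N t := by
    intro β t t'
    have a1 := mono1 β (le_max_right t t')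
    have a2 := mono2 β (le_max_left t t')
    have a3 : 0 < q ^ N (max t t') := by positivity
    simp only at a1 a2
    linarith
  set F : (ℕ → Prop) → ℝ := fun β => ⨆ t, (st β t).1 with hF
  have F1 : ∀ β t, (st β t).1 ≤ F β := fun β t =>
    le_ciSup (f := fun t => (st β t).1) ⟨_, by rintro _ ⟨t', rfl⟩; exact bdd β 0 t'⟩ t
  have F2 : ∀ β t, F β ≤ (st β t).1 + q ^ N t := fun β t => ciSup_le fun t' => bdd β t t'
  refine ⟨F, ?_, ?_, ?_⟩
  · intro β β' t h
    have a1 := F1 β t
    have a2 := F2 β t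
    have a3 := F1 β' t
    have a4 := F2 β' t
    rw [loc β β' t h] at a1 a2
    have : q ^ N t ≤ q ^ t := pow_le_pow_of_le_one q0.le q1.le (by
      simp only [hN]; nlinarith [Nat.le_self_pow (n := 2) (by norm_num) t])
    rw [abs_le]; constructor <;> linarith
  · intro β s hs
    set t := Nat.sqrt s with ht
    have a1 : t ^ 2 ≤ s := Nat.sqrt_le' s
    have a2 : s < (t + 1) ^ 2 := Nat.lt_succ_sqrt' s
    have := h3 t (β t) (st β t).1 (st β t).2 hs (s - t ^ 2) (by
      have : (t + 1) ^ 2 = t ^ 2 + (2 * t + 1) := by ring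
      omega) (F β) (by rw [← st1]; exact F1 β (t + 1))
      (by rw [← st1]; exact F2 β (t + 1))
    have e : N t + 2 * 7 * (s - t ^ 2) + 7 = 2 * 7 * s + 7 := by
      simp only [hN]
      omega
    rwa [e] at this
  · intro β hβ i ε hε
    have hSb : ∀ t j, |(st β t).2 j| ≤ t ^ 2 := by
      intro t j
      induction t with
      | zero => simp [st]
      | succ t ih =>
        rw [st2]
        have a1 := hDb j t (st β (t + 1)).1
        have a2 : (0 : ℝ) ≤ t := by positivity
        refine (abs_add_le _ _).trans ?_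
        push_cast
        split_ifs
        · rw [abs_zero]; nlinarith
        · nlinarith
    have hΦ : ∀ t, ∑ j ∈ range t, (1 / 4 : ℝ) ^ j * (st β t).2 j ^ 2 ≤ 11 * t ^ 3 := by
      intro t
      induction t with
      | zero => simp
      | succ t ih =>
        have t0 : (0 : ℝ) ≤ t := by positivity
        have b1 : ∑ j ∈ range (t + 1), (1 / 4 : ℝ) ^ j * (st β t).2 j ^ 2 ≤
            11 * t ^ 3 + (t + 1) ^ 2 := by
          rw [Finset.sum_range_succ]
          have c1 : (st β t).2 t ^ 2 ≤ (t ^ 2) ^ 2 := by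
            rw [← sq_abs]; exact pow_le_pow_left₀ (abs_nonneg _) (hSb t t) 2
          have c2 : (1 / 4 : ℝ) ^ t * t ^ 2 ≤ 1 := by
            have d1 : (t : ℝ) ≤ 2 ^ t := by exact_mod_cast (Nat.lt_two_pow_self).le
            have d2 : (t : ℝ) ^ 2 ≤ (2 ^ t) ^ 2 := pow_le_pow_left₀ t0 d1 2
            have d3 : (1 / 4 : ℝ) ^ t * (2 ^ t) ^ 2 = 1 := by
              rw [← pow_mul, mul_comm t 2, pow_mul, ← mul_pow]; norm_num
            calc (1 / 4 : ℝ) ^ t * t ^ 2 ≤ (1 / 4 : ℝ) ^ t * (2 ^ t) ^ 2 :=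
                  mul_le_mul_of_nonneg_left d2 (by positivity)
              _ = 1 := d3
          have c3 : (1 / 4 : ℝ) ^ t * (st β t).2 t ^ 2 ≤ (t + 1) ^ 2 := by
            calc (1 / 4 : ℝ) ^ t * (st β t).2 t ^ 2 ≤ (1 / 4 : ℝ) ^ t * (t ^ 2) ^ 2 :=
                  mul_le_mul_of_nonneg_left c1 (by positivity)
              _ = ((1 / 4 : ℝ) ^ t * t ^ 2) * t ^ 2 := by ring
              _ ≤ 1 * t ^ 2 := mul_le_mul_of_nonneg_right c2 (by positivity)
              _ ≤ (t + 1) ^ 2 := by nlinarith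
          linarith
        have b0 : (11 : ℝ) * t ^ 3 + 11 * (t + 1) ^ 2 ≤ 11 * (t + 1) ^ 3 := by
          nlinarith [sq_nonneg (t : ℝ)]
        have b5 : (0 : ℝ) ≤ (t + 1) ^ 2 := by positivity
        push_cast
        by_cases hbt : β t
        · simp only [st2, if_pos hbt, add_zero]
          linarith
        · simp only [st2, if_neg hbt]
          have b2 := h4 t (β t) (st β t).1 (st β t).2 hbt
          rw [← st1] at b2
          have b3 : ∑ j ∈ range (t + 1), |(1 / 4 : ℝ) ^ j * (st β t).2 j| ≤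
              2 * ((t + 1) ^ 2) := by
            refine le_trans (Finset.sum_le_sum
              (g := fun j => (1 / 4 : ℝ) ^ j * ((t + 1) ^ 2)) fun j _ => ?_) ?_
            · rw [abs_mul, abs_of_nonneg (by positivity)]
              apply mul_le_mul_of_nonneg_left _ (by positivity)
              refine (hSb t j).trans ?_
              nlinarith
            · rw [← Finset.sum_mul]
              exact mul_le_mul_of_nonneg_right (wsum _) (by positivity)
          have b4 : ∑ j ∈ range (t + 1), (1 / 4 : ℝ) ^ j * D j t (st β (t + 1)).1 ^ 2 ≤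
              2 * (t + 1) ^ 2 := by
            refine le_trans (Finset.sum_le_sum
              (g := fun j => (1 / 4 : ℝ) ^ j * (t + 1) ^ 2) fun j _ => ?_) ?_
            · apply mul_le_mul_of_nonneg_left _ (by positivity)
              rw [← sq_abs]
              exact pow_le_pow_left₀ (abs_nonneg _) (hDb j t _) 2
            · rw [← Finset.sum_mul]
              exact mul_le_mul_of_nonneg_right (wsum _) (by positivity)
          have e : ∑ j ∈ range (t + 1),
              (1 / 4 : ℝ) ^ j * ((st β t).2 j + D j t (st β (t + 1)).1) ^ 2 =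
              ∑ j ∈ range (t + 1), (1 / 4 : ℝ) ^ j * (st β t).2 j ^ 2 +
              2 * ∑ j ∈ range (t + 1), ((1 / 4) ^ j * (st β t).2 j) * D j t (st β (t + 1)).1 +
              ∑ j ∈ range (t + 1), (1 / 4 : ℝ) ^ j * D j t (st β (t + 1)).1 ^ 2 := by
            rw [Finset.mul_sum, ← Finset.sum_add_distrib, ← Finset.sum_add_distrib]
            exact Finset.sum_congr rfl fun j _ => by ring
          rw [e]
          linarith
    have hdiff : ∀ t, |∑ s ∈ range t, D i s (F β) - (st β t).2 i| ≤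
        t + ((range t).filter β).card * (t : ℝ) := by
      intro t
      induction t with
      | zero => simp [st]
      | succ t ih =>
        have t0 : (0 : ℝ) ≤ t := by positivity
        rw [Finset.sum_range_succ, st2, Finset.range_add_one, Finset.filter_insert]
        have k0 : (0 : ℝ) ≤ ((range t).filter β).card := by positivity
        by_cases hbt : β t
        · rw [if_pos hbt, if_pos hbt, Finset.card_insert_of_notMem (by simp)]
          have a1 := hDb i t (F β)
          rw [abs_le] at ih a1 ⊢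
          push_cast
          constructor <;> nlinarith
        · rw [if_neg hbt, if_neg hbt]
          have a1 : |D i t (F β) - D i t (st β (t + 1)).1| ≤ 1 := by
            apply hL
            have := F1 β (t + 1)
            have := F2 β (t + 1)
            rw [abs_le]; constructor <;> linarith
          rw [abs_le] at ih a1 ⊢
          push_cast
          constructor <;> nlinarith
    set e := ε / 3 with he
    have e0 : 0 < e := by positivity
    filter_upwards [eventually_gt_atTop i,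
      tendsto_natCast_atTop_atTop.eventually_ge_atTop (4 ^ i * 11 / e ^ 2 : ℝ),
      tendsto_natCast_atTop_atTop.eventually_ge_atTop (1 / e : ℝ), hβ e e0] with t c1 c2 c4 c5
    have t1 : (1 : ℝ) ≤ t := by exact_mod_cast (show 1 ≤ t by omega)
    have d1 : |(st β t).2 i| ≤ e * t ^ 2 := by
      apply abs_le_of_sq_le_sq _ (by positivity)
      have f1 : (1 / 4 : ℝ) ^ i * (st β t).2 i ^ 2 ≤ 11 * t ^ 3 :=
        le_trans (Finset.single_le_sum (f := fun j => (1 / 4 : ℝ) ^ j * (st β t).2 j ^ 2)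
          (fun j _ => by positivity) (Finset.mem_range.mpr c1)) (hΦ t)
      have f2 : (st β t).2 i ^ 2 ≤ 4 ^ i * 11 * t ^ 3 := by
        have := mul_le_mul_of_nonneg_left f1 (show (0 : ℝ) ≤ 4 ^ i by positivity)
        rwa [← mul_assoc, ← mul_pow, show (4 : ℝ) * (1 / 4) = 1 by norm_num, one_pow, one_mul,
          ← mul_assoc] at this
      rw [div_le_iff₀ (by positivity)] at c2
      calc (st β t).2 i ^ 2 ≤ 4 ^ i * 11 * t ^ 3 := f2
        _ ≤ (t * e ^ 2) * t ^ 3 := mul_le_mul_of_nonneg_right c2 (by positivity)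
        _ = (e * t ^ 2) ^ 2 := by ring
    have d3 := hdiff t
    rw [div_le_iff₀ e0] at c4
    have d5 : (t : ℝ) ≤ e * t ^ 2 := by nlinarith
    have d6 : (((range t).filter β).card : ℝ) * t ≤ e * t * t :=
      mul_le_mul_of_nonneg_right c5 (by positivity)
    have d10 : ε * t ^ 2 = 3 * (e * t ^ 2) := by rw [he]; ring
    rw [abs_le] at d1 d3 ⊢
    constructor <;> nlinarith

end Pool.Agent.H.MP_26ac3f_lc
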