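import Pool.Agent.H.MP_26ac3f_lc.A

namespace Pool.Agent.H.MP_26ac3f_lc

open Classical Filter Topology Finset Pool.Agent.H.MP_7a0c2d_lc

theorem scale {a : ℝ} (ha : 1 < |a|) : ∃ (M : ℕ → ℕ) (c : ℝ), 0 < c ∧ M 0 = 0 ∧ Monotone M ∧
    (∀ t, (M (t + 1) : ℝ) ≤ M t + (2 * c + 1) * (t + 1)) ∧ (∀ t : ℕ, c * t ^ 2 ≤ M t + 1) ∧
    (∀ t, |a|⁻¹ ^ M t ≤ |a| * |(2 : ℝ)|⁻¹ ^ (14 * t ^ 2)) ∧
    (∀ t, |(2 : ℝ)|⁻¹ ^ (14 * t ^ 2) ≤ |a|⁻¹ ^ M t) := by
  have l1 : 0 < Real.log |a| := Real.log_pos ha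
  have l2 : 0 < Real.log 2 := Real.log_pos (by norm_num)
  have a0 : 0 < |a| := by linarith
  set c : ℝ := 14 * (Real.log 2 / Real.log |a|) with hc
  have c0 : 0 < c := by positivity
  have ce : ∀ t : ℕ, c * t ^ 2 * Real.log |a| = ((14 * t ^ 2 : ℕ) : ℝ) * Real.log 2 := by
    intro t; rw [hc]; push_cast; field_simp
  have f1 : ∀ t : ℕ, (⌊c * t ^ 2⌋₊ : ℝ) ≤ c * t ^ 2 := fun t => Nat.floor_le (by positivity)
  have f2 : ∀ t : ℕ, c * t ^ 2 < (⌊c * t ^ 2⌋₊ : ℝ) + 1 := fun t => Nat.lt_floor_add_one _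
  have e2 : |(2 : ℝ)| = 2 := by norm_num
  refine ⟨fun t => ⌊c * t ^ 2⌋₊, c, c0, by simp, ?_, ?_, fun t => (f2 t).le, ?_, ?_⟩
  · intro s t h
    apply Nat.floor_le_floor
    have : (s : ℝ) ≤ t := by exact_mod_cast h
    gcongr
  · intro t
    have h1 := f1 (t + 1)
    have h2 := f2 t
    have t0 : (0 : ℝ) ≤ t := Nat.cast_nonneg _
    push_cast at h1 ⊢
    nlinarith
  · intro t
    have : (2 : ℝ) ^ (14 * t ^ 2) ≤ |a| ^ (⌊c * t ^ 2⌋₊ + 1) := by
      rw [← Real.log_le_log_iff (by positivity) (by positivity), Real.log_pow, Real.log_pow,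
        ← ce]
      push_cast
      exact mul_le_mul_of_nonneg_right (f2 t).le l1.le
    rw [e2, inv_pow, inv_pow, ← div_eq_mul_inv, le_div_iff₀ (by positivity),
      inv_mul_le_iff₀ (by positivity), ← pow_succ]
    exact this
  · intro t
    have : |a| ^ (⌊c * t ^ 2⌋₊) ≤ (2 : ℝ) ^ (14 * t ^ 2) := by
      rw [← Real.log_le_log_iff (by positivity) (by positivity), Real.log_pow, Real.log_pow,
        ← ce]
      exact mul_le_mul_of_nonneg_right (f1 t) l1.le
    rw [e2, inv_pow, inv_pow]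
    exact inv_anti₀ (by positivity) this

theorem blocks {a : ℝ} (ha : 1 < |a|) (φ : ℝ → ℝ) (hL : ∀ x y, |φ x - φ y| ≤ |x - y|)
    (hb : ∀ x, |φ x| ≤ 1) (hI : ∀ u v, |∫ x in u..v, φ x| ≤ 1) :
    ∃ D : ℕ → ℝ → ℝ, (∀ t, Continuous (D t)) ∧ (∀ t c, |D t c| ≤ t + 1) ∧
      (∀ t u v, |∫ x in u..v, D t x| ≤ |(2 : ℝ)|⁻¹ ^ (14 * t ^ 2)) ∧
      (∀ t x y, |x - y| ≤ |(2 : ℝ)|⁻¹ ^ (14 * (t + 1) ^ 2) → |D t x - D t y| ≤ 1) ∧
      ∀ ξ, (∀ ε : ℝ, 0 < ε → ∀ᶠ t : ℕ in atTop, |∑ s ∈ range t, D s ξ| ≤ ε * t ^ 2) →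
        ∀ ε : ℝ, 0 < ε → ∀ᶠ N : ℕ in atTop, |∑ n ∈ range N, φ (ξ * a ^ n)| ≤ ε * N := by
  obtain ⟨M, c, c0, M0, Mm, M1, M2, M3, M4⟩ := scale ha
  set q := |a|⁻¹ with hq
  have a0 : 0 < |a| := by linarith
  have q0 : 0 < q := by positivity
  have q1 : q < 1 := inv_lt_one_of_one_lt₀ ha
  have hα0 : a ≠ 0 := abs_pos.mp a0
  set C := (1 - q)⁻¹ with hC
  have C0 : 0 < C := by rw [hC]; exact inv_pos.mpr (by linarith)
  have hc : Continuous φ := (LipschitzWith.of_dist_le_mul (K := 1) (fun x y => by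
      simpa [Real.dist_eq] using hL x y)).continuous
  have hc2 : ∀ n, Continuous fun x => φ (x * a ^ n) := fun n =>
    hc.comp (continuous_id.mul continuous_const)
  set B : ℝ := 2 * c + 1 + C * |a| with hB
  have Ca : C ≤ C * |a| := le_mul_of_one_le_right C0.le ha.le
  have B0 : 0 < B := by positivity
  have cardb : ∀ (t n : ℕ) (x : ℝ), n ≤ M (t + 1) →
      |∑ m ∈ Ico (M t) n, φ (x * a ^ m)| ≤ B * (t + 1) := by
    intro t n x hn
    refine (Finset.abs_sum_le_sum_abs _ _).trans ?_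
    refine (Finset.sum_le_sum (g := fun _ => (1 : ℝ)) fun n _ => hb _).trans ?_
    simp only [Finset.sum_const, Nat.card_Ico, nsmul_eq_mul, mul_one]
    have h1 : ((n - M t : ℕ) : ℝ) ≤ ((M (t + 1) - M t : ℕ) : ℝ) := by
      exact_mod_cast Nat.sub_le_sub_right hn _
    rw [Nat.cast_sub (Mm (Nat.le_succ t))] at h1
    have h2 := M1 t
    have t0 : (0 : ℝ) ≤ t := Nat.cast_nonneg _
    have h3 : (2 * c + 1) * ((t : ℝ) + 1) ≤ B * (t + 1) :=
      mul_le_mul_of_nonneg_right (by rw [hB]; linarith) (by linarith)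
    simp only [Nat.succ_eq_add_one] at h1
    linarith
  refine ⟨fun t x => B⁻¹ * ∑ n ∈ Ico (M t) (M (t + 1)), φ (x * a ^ n), fun t => ?_,
    fun t x => ?_, fun t u v => ?_, fun t x y h => ?_, fun ξ h ε hε => ?_⟩
  · exact continuous_const.mul (continuous_finsetSum _ fun n _ => hc2 n)
  · rw [abs_mul, abs_of_pos (inv_pos.mpr B0), inv_mul_le_iff₀ B0]
    exact cardb t _ x le_rfl
  · rw [intervalIntegral.integral_const_mul, intervalIntegral.integral_finsetSum
      (fun n _ => (hc2 n).intervalIntegrable _ _), abs_mul, abs_of_pos (inv_pos.mpr B0),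
      inv_mul_le_iff₀ B0]
    have h1 : |∑ n ∈ Ico (M t) (M (t + 1)), ∫ x in u..v, φ (x * a ^ n)| ≤ C * q ^ M t := by
      refine (Finset.abs_sum_le_sum_abs _ _).trans (le_trans ?_ (geo1 q0.le q1 (M t) (M (t + 1))))
      apply Finset.sum_le_sum
      intro n _
      rw [intervalIntegral.integral_comp_mul_right (fun x => φ x) (pow_ne_zero n hα0),
        smul_eq_mul, abs_mul, abs_inv, abs_pow, ← inv_pow]
      exact mul_le_of_le_one_right (by positivity) (hI _ _)
    refine h1.trans ((mul_le_mul_of_nonneg_left (M3 t) C0.le).trans ?_)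
    rw [← mul_assoc]
    exact mul_le_mul_of_nonneg_right (by rw [hB]; linarith) (by positivity)
  · rw [← mul_sub, abs_mul, abs_of_pos (inv_pos.mpr B0), inv_mul_le_iff₀ B0, mul_one,
      ← Finset.sum_sub_distrib]
    refine (Finset.abs_sum_le_sum_abs _ _).trans
      (le_trans ?_ ((geo2 q0 q1 (M t) (M (t + 1))).trans (by rw [hB]; linarith)))
    apply Finset.sum_le_sum
    intro n _
    refine (hL _ _).trans ?_
    rw [← sub_mul, abs_mul, abs_pow, hq, inv_inv]
    exact mul_le_mul_of_nonneg_right (h.trans (M4 (t + 1))) (by positivity)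
  · have tel : ∀ t, ∑ n ∈ range (M t), φ (ξ * a ^ n) =
        B * ∑ s ∈ range t, B⁻¹ * ∑ n ∈ Ico (M s) (M (s + 1)), φ (ξ * a ^ n) := by
      intro t
      induction t with
      | zero => simp [M0]
      | succ t ih =>
        rw [Finset.sum_range_succ, mul_add, ← ih, ← mul_assoc, mul_inv_cancel₀ B0.ne', one_mul]
        exact (Finset.sum_range_add_sum_Ico _ (Mm (Nat.le_succ t))).symm
    set e := ε * c / (6 * B) with he
    have e0 : 0 < e := by positivity
    have ev := (h e e0).and ((tendsto_natCast_atTop_atTop.eventually_ge_atTop (1 / e : ℝ)).and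
      ((tendsto_natCast_atTop_atTop.eventually_ge_atTop (2 / c : ℝ)).and
      (eventually_ge_atTop 1)))
    obtain ⟨t0, ht0⟩ := eventually_atTop.mp ev
    filter_upwards [eventually_ge_atTop (M t0)] with n hn
    have ex : ∃ t, n < M (t + 1) := by
      obtain ⟨t, ht⟩ := exists_nat_gt (((n : ℝ) + 1) / c)
      refine ⟨t, ?_⟩
      rw [div_lt_iff₀ c0] at ht
      have h1 := M2 (t + 1)
      have t0 : (0 : ℝ) ≤ t := Nat.cast_nonneg _
      push_cast at h1
      have : (n : ℝ) < M (t + 1) := by nlinarith [mul_nonneg c0.le t0, mul_nonneg t0 t0]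
      exact_mod_cast this
    obtain ⟨t, a3, a1, a2⟩ : ∃ t, t0 ≤ t ∧ M t ≤ n ∧ n < M (t + 1) := by
      refine ⟨Nat.find ex, ?_, ?_, Nat.find_spec ex⟩
      · by_contra hcon
        have := Mm (show Nat.find ex + 1 ≤ t0 by omega)
        have := Nat.find_spec ex
        omega
      · rcases Nat.eq_zero_or_pos (Nat.find ex) with h0 | h0
        · rw [h0, M0]; exact Nat.zero_le _
        · have := Nat.find_min ex (show Nat.find ex - 1 < Nat.find ex by omega)
          rw [Nat.sub_add_cancel h0] at this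
          omega
    obtain ⟨c1, c2, c3, c4⟩ := ht0 t a3
    have t1 : (1 : ℝ) ≤ t := by exact_mod_cast c4
    rw [← Finset.sum_range_add_sum_Ico _ a1, tel]
    refine (abs_add_le _ _).trans ?_
    rw [abs_mul, abs_of_pos B0]
    have d1 := mul_le_mul_of_nonneg_left c1 B0.le
    have d2 := cardb t n ξ a2.le
    rw [div_le_iff₀ e0] at c2
    rw [div_le_iff₀ c0] at c3
    beta_reduce at d1
    have d3 : (t : ℝ) + 1 ≤ 2 * (e * t ^ 2) := by nlinarith
    have d4 := mul_le_mul_of_nonneg_left d3 B0.le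
    have d5 : (M t : ℝ) ≤ n := by exact_mod_cast a1
    have d6 := M2 t
    have d7 : c * t ^ 2 ≤ 2 * n := by nlinarith
    have d8 : 3 * (B * (e * t ^ 2)) = ε * (c * t ^ 2) / 2 := by rw [he]; field_simp; ring
    have d9 := mul_le_mul_of_nonneg_left d7 hε.le
    linarith

theorem hard2 (α : ℕ → ℝ) (hα : ∀ k, 1 < |α k|) (h2 : ∃ k, α k = 2)
    (G : ℕ → ℕ → Set (ℕ → ℕ)) (hG : ∀ i j, IsClosed (G i j)) :
    ∃ f : (ℕ → ℕ) → ℝ, Continuous f ∧
      f ⁻¹' {ξ : ℝ | ∀ k, UD (fun n => ξ * α k ^ n)} = ⋂ i, ⋃ j, G i j := by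
  have q0 : 0 < |(2 : ℝ)|⁻¹ := by positivity
  have q1 : |(2 : ℝ)|⁻¹ < 1 := by norm_num
  obtain ⟨φ, hL, hb, hI, hU⟩ := tests
  choose D D1 D2 D3 D4 D5 using fun j : ℕ => blocks (hα (Nat.unpair j).1) (φ (Nat.unpair j).2)
    (hL _) (hb _) (hI _)
  obtain ⟨F, F1, F2, F3⟩ := core2 D D1 D2 D3 D4
  refine ⟨fun x => F (bad (yy G x)), ?_, ?_⟩
  · rw [continuous_iff_continuousAt]
    intro x
    rw [ContinuousAt, Metric.tendsto_nhds]
    intro ε hε
    obtain ⟨t, ht⟩ := exists_pow_lt_of_lt_one hε q1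
    have ev : ∀ᶠ x' in 𝓝 x, ∀ m ∈ range (t + 1), x' m = x m := by
      refine (Finset.eventually_all _).mpr fun m _ => ?_
      have : ContinuousAt (fun x' : ℕ → ℕ => x' m) x := (continuous_apply m).continuousAt
      exact this.eventually (p := fun b => b = x m) (by simp [nhds_discrete])
    filter_upwards [ev] with x' hx'
    rw [Real.dist_eq]
    refine lt_of_le_of_lt (F1 _ _ t fun s hs => ?_) ht
    unfold bad
    have := Nat.log_le_self 2 s
    rw [yy_loc G (x := x') (x' := x) fun m hm => hx' m (Finset.mem_range.mpr (by omega))]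
  · ext x
    rw [yy_iff hG, Set.mem_preimage, Set.mem_ofPred_eq]
    constructor
    · intro h
      by_contra hc
      push Not at hc
      obtain ⟨k, hk⟩ := hc
      obtain ⟨k2, hk2⟩ := h2
      have h' := h k2
      rw [hk2] at h'
      exact not_ud hk (R := 7) (by norm_num) (δ := |(2 : ℝ)|⁻¹ ^ 7) (by positivity)
        (by norm_num) (F2 _) h'
    · intro h k
      apply hU
      intro i
      have := D5 (Nat.pair k i) _ (F3 _ (bad_density h) (Nat.pair k i))
      simpa only [Nat.unpair_pair] using this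

theorem embed (Y : Type) [TopologicalSpace Y] [SecondCountableTopology Y]
    (h : TopologicalSpace.IsTopologicalBasis {s : Set Y | IsClopen s}) :
    ∃ e : Y → ℕ → ℕ, Continuous e ∧ ∀ s : Set Y, IsClosed s → e ⁻¹' closure (e '' s) = s := by
  obtain ⟨s, hs1, hs2, hs3⟩ := h.exists_countable
  obtain ⟨U, hU⟩ := (hs2.insert ∅).exists_eq_range (Set.insert_nonempty _ _)
  have hcl : ∀ n, IsClopen (U n) := by
    intro n
    have : U n ∈ insert ∅ s := hU ▸ Set.mem_range_self n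
    rcases this with h | h
    · rw [h]; exact isClopen_empty
    · exact hs1 h
  refine ⟨fun y n => if y ∈ U n then 1 else 0, ?_, fun t ht => ?_⟩
  · refine continuous_pi fun n => ?_
    exact (hcl n).continuous_indicator (f := fun _ => (1 : ℕ)) continuous_const
  · refine Set.Subset.antisymm (fun y hy => ?_)
      fun y hy => Set.mem_preimage.mpr (subset_closure (Set.mem_image_of_mem _ hy))
    by_contra hc
    obtain ⟨V, hV, hy1, hy2⟩ := hs3.exists_subset_of_mem_open (show y ∈ tᶜ from hc)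
      ht.isOpen_compl
    obtain ⟨n, rfl⟩ : V ∈ Set.range U := hU ▸ Set.mem_insert_of_mem _ hV
    have hcl2 : IsClosed {x : ℕ → ℕ | x n = 0} :=
      isClosed_eq (continuous_apply n) continuous_const
    have := hcl2.closure_subset_iff.mpr (show (fun y n => if y ∈ U n then 1 else 0) '' t ⊆
      {x : ℕ → ℕ | x n = 0} by
        rintro _ ⟨z, hz, rfl⟩
        exact if_neg fun h => hy2 h hz) hy
    simp [hy1] at this

end Pool.Agent.H.MP_26ac3f_lc
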